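import Pool.Agent.U19.TX.Base

/-!
# Tychonoff cubes in spaces which are t-embedded in Tychonoff cubes

The proof of `Pool.Agent.H69R3.core2` with the Tychonoff cube in place of the Cantor cube.
-/

set_option autoImplicit false

open Set Topology Filter unitInterval

universe u v

namespace Pool.Agent.U19.TX

open Pool.Agent.H69R3
open Pool.Agent.Helper126 (delta_system uncountable_fiber)

open Classical in
/-- the coordinates in `G` are replaced by the coded ones -/
noncomputable def ret {J : Type*} (G : Finset J) (s : J → ℕ) (d : J → I) : J → I :=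
  fun j => if j ∈ G then rs (s j) else d j

theorem ret_mem {J : Type*} {G : Finset J} {s : J → ℕ} {d : J → I} {j : J} (hj : j ∈ G) :
    ret G s d j = rs (s j) := by simp [ret, hj]

theorem ret_not_mem {J : Type*} {G : Finset J} {s : J → ℕ} {d : J → I} {j : J} (hj : j ∉ G) :
    ret G s d j = d j := by simp [ret, hj]

theorem continuous_ret {J : Type*} (G : Finset J) (s : J → ℕ) : Continuous (ret G s) := by
  apply continuous_pi
  intro j
  by_cases hj : j ∈ G
  · simp only [ret_mem hj]
    exact continuous_const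
  · simp only [ret_not_mem hj]
    exact continuous_apply j

/-- If the compact space `X` contains no uncountable Tychonoff cube, then an uncountable Tychonoff
cube cannot be mapped into `C_p(C_p(X))` by a map which is independent on functions `h β`. -/
theorem core3 {X : Type u} [TopologicalSpace X] [CompactSpace X] [T2Space X]
    (hN : ∀ (S : Type v) [Uncountable S] (g : (S → I) → X), Continuous g →
      ¬ Function.Injective g)
    {J : Type v} [Uncountable J] (Φ : (J → I) → Cp X → ℝ) (h1 : ∀ f, Continuous fun d => Φ d f)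
    (h2 : ∀ d, Continuous (Φ d)) (h : J → Cp X)
    (hf : ∀ d β, d β = 0 → Φ d (h β) ≤ 0) (ht : ∀ d β, d β = 1 → 1 ≤ Φ d (h β)) : False := by
  classical
  rcases isEmpty_or_nonempty X with hX | hX
  · have hinf : Infinite J := inferInstance
    obtain ⟨β⟩ : Nonempty J := inferInstance
    obtain ⟨γ, hγ⟩ := exists_ne β
    have e1 := hf (upd γ 1 fun _ => 0) β (by rw [upd_ne hγ.symm])
    have e2 := ht (upd γ 1 fun _ => 0) γ (by rw [upd_self])
    have e3 : h β = h γ := Subtype.ext (funext fun x => (hX.false x).elim)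
    rw [e3] at e1
    linarith
  have key : ∀ β : J, ∃ (n : ℕ) (G : Finset J) (s : J → ℕ) (E : (J → I) → Finset X)
      (c : Set J), c.Countable ∧ (∀ γ ∉ c, ∀ v d, E (upd γ v d) = E d) ∧
      ∀ d : J → I, (∀ j ∈ G, j ≠ β → d j = rs (s j)) → ∀ f : Cp X,
        (∀ x ∈ E d, |f.1 x - (h β).1 x| < 1 / (n + 1 : ℝ)) →
        |Φ (upd β 0 d) f - Φ (upd β 0 d) (h β)| ≤ 1 / 3 ∧
        |Φ (upd β 1 d) f - Φ (upd β 1 d) (h β)| ≤ 1 / 3 := by
    intro β
    obtain ⟨V, hVo, ⟨d1, hd1⟩, δ, hδ, k, F, hFc, hF⟩ := local_cont (D := J → I) (X := X)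
      (Θ := fun d f => max |Φ (upd β 0 d) f - Φ (upd β 0 d) (h β)|
        |Φ (upd β 1 d) f - Φ (upd β 1 d) (h β)|)
      (fun f => (((((h1 f).comp (continuous_upd β 0)).sub
        ((h1 (h β)).comp (continuous_upd β 0))).abs)).max
        ((((h1 f).comp (continuous_upd β 1)).sub ((h1 (h β)).comp (continuous_upd β 1))).abs))
      (fun d => (((h2 (upd β 0 d)).sub continuous_const).abs).max
        (((h2 (upd β 1 d)).sub continuous_const).abs)) (h β) (by norm_num : (0 : ℝ) < 1 / 3)
    obtain ⟨G, s, hG⟩ := exists_code hVo hd1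
    obtain ⟨n, hn⟩ := exists_nat_one_div_lt hδ
    have hrV : ∀ d : J → I, ret G s d ∈ V := fun d => hG _ fun j hj => ret_mem hj
    have hgc : Continuous fun d : J → I => F (ret G s d) := by
      rw [← continuousOn_univ]
      exact hFc.comp (continuous_ret G s).continuousOn fun d _ => hrV d
    refine ⟨n, G, s, fun d => Finset.univ.image (F (ret G s d)),
      ⋃ a : Fin k, {γ : J | ∃ d v, F (ret G s (upd γ v d)) a ≠ F (ret G s d) a}, ?_, ?_, ?_⟩
    · exact countable_iUnion fun a => cube_support hN (fun d => F (ret G s d) a)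
        ((continuous_apply a).comp hgc)
    · intro γ hγ v d
      have : F (ret G s (upd γ v d)) = F (ret G s d) := by
        funext a
        by_contra hne
        exact hγ (mem_iUnion.2 ⟨a, d, v, hne⟩)
      simp only [this]
    · intro d hd f hfd
      have e1 := hF _ (hrV d) f (by
        intro a
        exact (hfd _ (Finset.mem_image_of_mem _ (Finset.mem_univ a))).trans hn)
      simp only [sub_self, abs_zero, max_self, sub_zero] at e1
      rw [abs_of_nonneg (le_max_of_le_left (abs_nonneg _))] at e1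
      have hu : ∀ v : I, upd β v (ret G s d) = upd β v d := by
        intro v
        funext j
        by_cases hjβ : j = β
        · subst hjβ
          rw [upd_self, upd_self]
        · rw [upd_ne hjβ, upd_ne hjβ]
          by_cases hj' : j ∈ G
          · rw [ret_mem hj', hd j hj' hjβ]
          · rw [ret_not_mem hj']
      rw [hu, hu] at e1
      exact max_le_iff.1 e1
  choose n G s E c hc hE hctl using key
  have hU : ¬ (univ : Set J).Countable := Set.not_countable_univ_iff.2 inferInstance
  obtain ⟨m, hm⟩ := uncountable_fiber n univ hU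
  obtain ⟨S, hSm, hS, t, hSt⟩ := amalgN _ hm G s
  have hnS : ∀ β ∈ S, n β = m := fun β hβ => (hSm hβ).2
  have hδ : (0 : ℝ) < 1 / (m + 1 : ℝ) := by positivity
  set d0 : J → I := fun j => if j ∈ S then 0 else rs (t j) with hd0
  have hd00 : ∀ β ∈ S, d0 β = 0 := by
    intro β hβ
    rw [hd0]
    simp only [hβ, if_true]
  have hd01 : ∀ j ∉ S, d0 j = rs (t j) := by
    intro j hj
    rw [hd0]
    simp only [hj, if_false]
  -- coincidences
  have hco : ∀ β ∈ S, ∀ γ ∈ S, β ≠ γ → γ ∉ c β → ∃ x ∈ E β d0, x ∈ E γ d0 ∧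
      2 * (1 / (m + 1 : ℝ)) ≤ |(h β).1 x - (h γ).1 x| := by
    intro β hβ γ hγ hβγ hγc
    by_contra hcon
    push Not at hcon
    obtain ⟨f, hfv⟩ := interp (E β d0 ∪ E γ d0) fun x =>
      if x ∈ E β d0 then
        (if x ∈ E γ d0 then ((h β).1 x + (h γ).1 x) / 2 else (h β).1 x)
      else (h γ).1 x
    have g1 := (hctl β (upd γ 1 d0) (by
      intro j hj hjβ
      obtain ⟨h4, h5⟩ := hSt β hβ j hj hjβ
      have h6 : j ≠ γ := fun h => h4 (h ▸ hγ)
      rw [upd_ne h6, hd01 j h4, h5]) f (by
      rw [hE β γ hγc 1 d0, hnS β hβ]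
      intro x hx
      rw [hfv _ (Finset.mem_union_left _ hx), if_pos hx]
      by_cases hx2 : x ∈ E γ d0
      · rw [if_pos hx2]
        have := hcon _ hx hx2
        rw [abs_lt] at this ⊢
        constructor <;> linarith [this.1, this.2]
      · rw [if_neg hx2, sub_self, abs_zero]
        exact hδ)).1
    have g2 := (hctl γ d0 (by
      intro j hj hjβ
      obtain ⟨h4, h5⟩ := hSt γ hγ j hj hjβ
      rw [hd01 j h4, h5]) f (by
      rw [hnS γ hγ]
      intro x hx
      rw [hfv _ (Finset.mem_union_right _ hx)]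
      by_cases hx2 : x ∈ E β d0
      · rw [if_pos hx2, if_pos hx]
        have := hcon _ hx2 hx
        rw [abs_lt] at this ⊢
        constructor <;> linarith [this.1, this.2]
      · rw [if_neg hx2, sub_self, abs_zero]
        exact hδ)).2
    have e0 : upd γ 1 d0 β = 0 := by rw [upd_ne hβγ, hd00 β hβ]
    rw [upd_eq e0] at g1
    have e3 : Φ (upd γ 1 d0) (h β) ≤ 0 := hf _ _ e0
    have e4 : 1 ≤ Φ (upd γ 1 d0) (h γ) := ht _ _ (upd_self _ _ _)
    rw [abs_le] at g1 g2
    linarith [g1.1, g1.2, g2.1, g2.2]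
  -- Delta system
  obtain ⟨S1, R, hS1S, hS1, hR, hdis⟩ := delta_system (fun β => E β d0) S hS
  obtain ⟨r, hr⟩ := uncountable_fiber
    (fun β => fun x : R => ⌊(h β).1 x * (m + 1 : ℝ)⌋) S1 hS1
  obtain ⟨β, hβ⟩ : {i ∈ S1 | (fun x : R => ⌊(h i).1 x * (m + 1 : ℝ)⌋) = r}.Nonempty := by
    by_contra hne
    rw [not_nonempty_iff_eq_empty] at hne
    rw [hne] at hr
    exact hr countable_empty
  obtain ⟨γ, hγ, hγc⟩ : ∃ γ ∈ {i ∈ S1 | (fun x : R => ⌊(h i).1 x * (m + 1 : ℝ)⌋) = r},
      γ ∉ insert β (c β) := by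
    by_contra hcon
    push Not at hcon
    exact hr (((hc β).insert β).mono hcon)
  have hne : β ≠ γ := fun h => hγc (by rw [h]; exact mem_insert _ _)
  obtain ⟨x, hxβ, hxγ, hx⟩ := hco β (hS1S hβ.1) γ (hS1S hγ.1) hne
    fun h => hγc (mem_insert_of_mem _ h)
  have hxR := hdis β hβ.1 γ hγ.1 hne x hxβ hxγ
  have h3 : ⌊(h β).1 x * (m + 1 : ℝ)⌋ = ⌊(h γ).1 x * (m + 1 : ℝ)⌋ := by
    have e1 := congrFun hβ.2 ⟨x, hxR⟩
    have e2 := congrFun hγ.2 ⟨x, hxR⟩
    simp only at e1 e2
    rw [e1, e2]
  have h4 : |(h β).1 x * (m + 1 : ℝ) - (h γ).1 x * (m + 1 : ℝ)| < 1 :=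
    Int.abs_sub_lt_one_of_floor_eq_floor h3
  rw [← sub_mul, abs_mul, abs_of_pos (by positivity : (0 : ℝ) < m + 1)] at h4
  have h5 : |(h β).1 x - (h γ).1 x| < 1 / (m + 1 : ℝ) := by
    rw [lt_div_iff₀ (by positivity)]
    exact h4
  linarith

/-- functions on a Tychonoff cube which do not change when a coordinate outside `S` is changed
depend only on the coordinates in `S` -/
theorem dependsI {J : Type v} {g : (J → I) → ℝ} (hg : Continuous g) {S : Set J}
    (hS : ∀ β ∉ S, ∀ v d, g (upd β v d) = g d) {d d' : J → I} (hdd : ∀ β ∈ S, d β = d' β) :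
    g d = g d' := by
  classical
  have h2 : ∀ G : Finset J, ∀ d1 : J → I, (∀ β ∈ S, d1 β = d' β) →
      g (G.piecewise d' d1) = g d1 := by
    intro G
    induction G using Finset.induction_on with
    | empty => intro d1 _; rw [Finset.piecewise_empty]
    | insert a G ha ih =>
      intro d1 hd1
      rw [Finset.piecewise_insert]
      have h3 : ∀ d2 : J → I, (∀ β ∈ S, d2 β = d' β) →
          g (Function.update d2 a (d' a)) = g d2 := by
        intro d2 hd2
        by_cases h4 : a ∈ S
        · rw [← hd2 a h4, Function.update_eq_self]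
        · have h6 : Function.update d2 a (d' a) = upd a (d' a) d2 := by
            funext j
            by_cases hj : j = a
            · subst hj
              rw [upd_self, Function.update_self]
            · rw [upd_ne hj, Function.update_of_ne hj]
          rw [h6]
          exact hS a h4 _ d2
      rw [h3, ih d1 hd1]
      intro β hβ
      by_cases hβG : β ∈ G
      · rw [Finset.piecewise_eq_of_mem _ _ _ hβG]
      · rw [Finset.piecewise_eq_of_notMem _ _ _ hβG, hd1 β hβ]
  have h3 : d' ∈ closure {z | g z = g d} := by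
    rw [mem_closure_iff]
    intro U hU hd'
    obtain ⟨G, u, hu, hs⟩ := isOpen_pi_iff.1 hU d' hd'
    refine ⟨G.piecewise d' d, hs fun j hj => ?_, h2 G d hdd⟩
    rw [Finset.piecewise_eq_of_mem _ _ _ hj]
    exact (hu j hj).2
  have h4 : IsClosed {z | g z = g d} := isClosed_eq hg continuous_const
  rw [h4.closure_eq] at h3
  exact h3.symm

/-- Let `Ψ` be a continuous family, indexed by a Tychonoff cube, of functions on `C_p(X)` which
contains all the evaluations at the points of `X`, `X` compact. If only countably many coordinates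
of the cube are essential, `X` is metrizable. -/
theorem countable_caseI {X : Type u} [TopologicalSpace X] [CompactSpace X] [T2Space X]
    {J : Type v} (Ψ : (J → I) → Cp X → ℝ) (hΨ1 : ∀ f, Continuous fun d => Ψ d f)
    (i : X → J → I) (hΨe : ∀ f x, Ψ (i x) f = f.1 x)
    (hc : {β | ∃ f d v, Ψ (upd β v d) f ≠ Ψ d f}.Countable) :
    TopologicalSpace.MetrizableSpace X := by
  classical
  set S : Set J := {β | ∃ f d v, Ψ (upd β v d) f ≠ Ψ d f} with hS
  have : Countable S := hc.to_subtype
  have hS' : ∀ f, ∀ β ∉ S, ∀ v d, Ψ (upd β v d) f = Ψ d f := by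
    intro f β hβ v d
    by_contra h
    exact hβ ⟨f, d, v, h⟩
  let pl : (S → I) → (J → I) := fun e j => if hj : j ∈ S then e ⟨j, hj⟩ else 0
  have hpl : Continuous pl := by
    refine continuous_pi fun j => ?_
    by_cases hj : j ∈ S
    · simp only [pl, hj, dif_pos]
      exact continuous_apply _
    · simp only [pl, hj, dif_neg, not_false_eq_true]
      exact continuous_const
  let G : Cp X → C(S → I, ℝ) := fun f => ⟨fun e => Ψ (pl e) f, (hΨ1 f).comp hpl⟩
  have hG : ∀ f x, G f (fun s => i x s) = f.1 x := by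
    intro f x
    rw [← hΨe f x]
    refine dependsI (hΨ1 f) (hS' f) fun β hβ => ?_
    simp [pl, hβ]
  obtain ⟨c, hcc, hcr⟩ : ∃ c : Set (Cp X), c.Countable ∧ ∀ f, ∀ ε : ℝ, 0 < ε →
      ∃ f' ∈ c, dist (G f) (G f') < ε := by
    have hsep : TopologicalSpace.IsSeparable (range G) :=
      TopologicalSpace.IsSeparable.of_separableSpace _
    obtain ⟨c0, hc0, hc1, hc2⟩ := hsep.exists_countable_dense_subset
    have h3 : ∀ y ∈ c0, ∃ f, G f = y := fun y hy => hc0 hy
    have : Nonempty (Cp X) := ⟨⟨fun _ => 0, continuous_const⟩⟩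
    choose! F hF using h3
    refine ⟨F '' c0, hc1.image F, fun f ε hε => ?_⟩
    obtain ⟨y, hy, hyd⟩ := Metric.mem_closure_iff.1 (hc2 ⟨f, rfl⟩) ε hε
    exact ⟨F y, ⟨y, hy, rfl⟩, by rw [hF y hy]; exact hyd⟩
  have : Countable c := hcc.to_subtype
  let r : X → (c → ℝ) := fun x f => f.1.1 x
  have hr : Continuous r := continuous_pi fun f => f.1.2
  have hri : Function.Injective r := by
    intro x x' hxx
    by_contra hne
    obtain ⟨f, hf⟩ := interp {x, x'} fun y => if y = x then 0 else 1
    have h5 : f.1 x = 0 := by rw [hf x (by simp), if_pos rfl]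
    have h6 : f.1 x' = 1 := by rw [hf x' (by simp), if_neg (Ne.symm hne)]
    obtain ⟨f', hf', hd⟩ := hcr f (1 / 2) (by norm_num)
    have h7 : ∀ z, |f.1 z - f'.1 z| < 1 / 2 := by
      intro z
      rw [← hG f z, ← hG f' z, ← Real.dist_eq]
      exact (ContinuousMap.dist_apply_le_dist _).trans_lt hd
    have h8 : f'.1 x = f'.1 x' := congrFun hxx ⟨f', hf'⟩
    have h9 := h7 x
    have h10 := h7 x'
    rw [h5, abs_lt] at h9
    rw [h6, ← h8, abs_lt] at h10
    linarith [h9.1, h9.2, h10.1, h10.2]
  exact (hr.isClosedEmbedding hri).isEmbedding.metrizableSpace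

/-- The main theorem in terms of families of continuous functions on `C_p(X)`. -/
theorem main3 {X : Type u} [TopologicalSpace X] [CompactSpace X] [T2Space X]
    (hN : ∀ (S : Type v) [Uncountable S] (g : (S → I) → X), Continuous g →
      ¬ Function.Injective g)
    {J : Type v} (Ψ : (J → I) → Cp X → ℝ) (hΨ1 : ∀ f, Continuous fun d => Ψ d f)
    (hΨ2 : ∀ d, Continuous (Ψ d)) (i : X → J → I) (hΨe : ∀ f x, Ψ (i x) f = f.1 x) :
    TopologicalSpace.MetrizableSpace X := by
  classical
  set S : Set J := {β | ∃ f d v, Ψ (upd β v d) f ≠ Ψ d f} with hS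
  by_cases hc : S.Countable
  · exact countable_caseI Ψ hΨ1 i hΨe hc
  · exfalso
    have h1 : ∀ β ∈ S, ∃ (pq : ℚ × ℚ) (p q : I) (G : Finset J) (s : J → ℕ) (f : Cp X),
        (∀ d : J → I, (∀ j ∈ G, j ≠ β → d j = rs (s j)) → d β = p →
          (pq.1 : ℝ) * Ψ d f + pq.2 ≤ 0) ∧
        (∀ d : J → I, (∀ j ∈ G, j ≠ β → d j = rs (s j)) → d β = q →
          1 ≤ (pq.1 : ℝ) * Ψ d f + pq.2) := by
      rintro β ⟨f, d0, v0, hd0⟩
      set u := Ψ (upd β v0 d0) f with hu
      set v := Ψ d0 f with hv
      have huv : u ≠ v := hd0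
      obtain ⟨p, hp⟩ : ∃ p : ℚ, 1 < (p : ℝ) * (v - u) := by
        rcases lt_or_gt_of_ne huv with h2 | h2
        · obtain ⟨p, hp⟩ := exists_rat_gt (1 / (v - u))
          refine ⟨p, ?_⟩
          rwa [div_lt_iff₀ (sub_pos.2 h2)] at hp
        · obtain ⟨p, hp⟩ := exists_rat_lt (1 / (v - u))
          refine ⟨p, ?_⟩
          rwa [lt_div_iff_of_neg (sub_neg.2 h2)] at hp
      obtain ⟨q', hq1, hq2⟩ := exists_rat_btwn (show 1 - (p : ℝ) * v < -((p : ℝ) * u) by linarith)
      have hc1 : Continuous fun d => (p : ℝ) * Ψ d f + q' :=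
        ((continuous_const.mul (hΨ1 f)).add continuous_const)
      obtain ⟨G, s, hGs⟩ := exists_code2 β d0 (isOpen_lt hc1 continuous_const)
        (isOpen_lt continuous_const hc1) (v := v0) (w := d0 β)
        (show upd β v0 d0 ∈ {d | (p : ℝ) * Ψ d f + q' < 0} by
          show (p : ℝ) * u + q' < 0
          linarith)
        (show upd β (d0 β) d0 ∈ {d | 1 < (p : ℝ) * Ψ d f + q'} by
          rw [upd_eq rfl]
          show 1 < (p : ℝ) * v + q'
          linarith)
      refine ⟨(p, q'), v0, d0 β, G, s, f, ?_, ?_⟩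
      · intro d hd hdβ
        exact le_of_lt ((hGs d hd).1 hdβ)
      · intro d hd hdβ
        exact le_of_lt ((hGs d hd).2 hdβ)
    have : Nonempty (Cp X) := ⟨⟨fun _ => 0, continuous_const⟩⟩
    choose! pq p q G s f hneg hpos using h1
    obtain ⟨c, hcf⟩ := uncountable_fiber pq S hc
    obtain ⟨S', hS'S, hS', t, ht⟩ := amalgN _ hcf G s
    have : Uncountable S' := by
      rw [← not_countable_iff]
      exact fun h => hS' (Set.countable_coe_iff.1 h)
    refine core3 hN (J := S') (fun e' f' => (c.1 : ℝ) * Ψ (extI S' p q t e') f' + c.2) ?_ ?_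
      (fun β => f β) ?_ ?_
    · intro f'
      exact (continuous_const.mul ((hΨ1 f').comp (continuous_extI S' p q t))).add continuous_const
    · intro e'
      exact (continuous_const.mul (hΨ2 _)).add continuous_const
    · intro d β hd
      have h2 := hneg β (hS'S β.2).1 (extI S' p q t d) (by
        intro j hj hjβ
        obtain ⟨h4, h5⟩ := ht β β.2 j hj hjβ
        rw [extI_not_mem h4, h5]) (by
        rw [extI_mem β.2]
        show lin _ _ (d β) = _
        rw [hd, lin_zero])
      rw [(hS'S β.2).2] at h2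
      exact h2
    · intro d β hd
      have h2 := hpos β (hS'S β.2).1 (extI S' p q t d) (by
        intro j hj hjβ
        obtain ⟨h4, h5⟩ := ht β β.2 j hj hjβ
        rw [extI_not_mem h4, h5]) (by
        rw [extI_mem β.2]
        show lin _ _ (d β) = _
        rw [hd, lin_one])
      rw [(hS'S β.2).2] at h2
      exact h2

/-- An injective continuous map from an uncountable Tychonoff cube gives a copy of the Tychonoff
cube of weight `ω₁`. -/
theorem exists_omega1 {X : Type u} [TopologicalSpace X] [T2Space X] {S : Type v} [Uncountable S]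
    (g : (S → I) → X) (hg : Continuous g) (hinj : Function.Injective g) :
    ∃ (Ω : Type v) (k : (Ω → I) → X), Cardinal.mk Ω = Cardinal.aleph 1 ∧ IsEmbedding k := by
  classical
  have h3 : Cardinal.aleph 1 ≤ Cardinal.mk (univ : Set S) := by
    rw [Cardinal.mk_univ, Cardinal.aleph_one_le_iff]
    exact Cardinal.aleph0_lt_mk_iff.2 inferInstance
  obtain ⟨T, -, hT⟩ := Cardinal.le_mk_iff_exists_subset.1 h3
  refine ⟨T, fun d => g fun s => if hs : s ∈ T then d ⟨s, hs⟩ else 0, hT, ?_⟩
  have hcont : Continuous fun d : T → I => g fun s => if hs : s ∈ T then d ⟨s, hs⟩ else 0 := by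
    refine hg.comp (continuous_pi fun s => ?_)
    by_cases hs : s ∈ T
    · simp only [hs, dif_pos]
      exact continuous_apply _
    · simp only [hs, dif_neg, not_false_eq_true]
      exact continuous_const
  refine (hcont.isClosedEmbedding fun d d' h => ?_).isEmbedding
  have h4 := hinj h
  funext s
  have h5 := congrFun h4 s
  simpa using h5

/-- Compact spaces with a continuous family of continuous functions on `C_p(X)`, indexed by a
Tychonoff cube, which contains the evaluations. -/
theorem main_cube {X : Type u} [TopologicalSpace X] [CompactSpace X] [T2Space X]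
    {J : Type v} (Ψ : (J → I) → Cp X → ℝ) (hΨ1 : ∀ f, Continuous fun d => Ψ d f)
    (hΨ2 : ∀ d, Continuous (Ψ d)) (i : X → J → I) (hΨe : ∀ f x, Ψ (i x) f = f.1 x)
    (hm : ¬ TopologicalSpace.MetrizableSpace X) :
    ∃ (Ω : Type v) (k : (Ω → I) → X), Cardinal.mk Ω = Cardinal.aleph 1 ∧ IsEmbedding k := by
  by_contra hcon
  apply hm
  refine main3 (X := X) (J := J) ?_ Ψ hΨ1 hΨ2 i hΨe
  intro S _ g hg hinj
  exact hcon (exists_omega1 g hg hinj)

/-- compact spaces which are t-embedded in a continuous image of a Tychonoff cube -/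
theorem of_image {X : Type u} [TopologicalSpace X] [CompactSpace X] [T2Space X]
    {J : Type v} {D : Type*} [TopologicalSpace D] {q : (J → I) → D} {A : Set D}
    (hq : Continuous q) (hqs : Function.Surjective q) (H : X ≃ₜ A) (h : TEmbedded A)
    (hm : ¬ TopologicalSpace.MetrizableSpace X) :
    ∃ (Ω : Type v) (k : (Ω → I) → X), Cardinal.mk Ω = Cardinal.aleph 1 ∧ IsEmbedding k := by
  obtain ⟨φ, hφ, hφe⟩ := h
  let pb : Cp X → Cp A := fun f => ⟨fun a => f.1 (H.symm a), f.2.comp H.symm.continuous⟩
  have hpb : Continuous pb := by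
    refine Continuous.subtype_mk (continuous_pi fun a => ?_) _
    exact (continuous_apply (H.symm a)).comp continuous_subtype_val
  choose s hs using hqs
  refine main_cube (fun d f => (φ (pb f)).1 (q d)) (fun f => (φ (pb f)).2.comp hq)
    (fun d => (continuous_apply (q d)).comp (continuous_subtype_val.comp (hφ.comp hpb)))
    (fun x => s (H x)) (fun f x => ?_) hm
  rw [hs, hφe]
  show f.1 (H.symm (H x)) = f.1 x
  rw [H.symm_apply_apply]

/-- t-extral spaces -/
theorem of_extral {X : Type u} [TopologicalSpace X] [T35Space X] (h : TExtral X)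
    (hm : ¬ TopologicalSpace.MetrizableSpace X) :
    ∃ (Ω : Type u) (k : (Ω → I) → X), Cardinal.mk Ω = Cardinal.aleph 1 ∧ IsEmbedding k := by
  obtain ⟨hc, κ, e, ψ, he, hψ, hψe⟩ := extral_cube h
  exact main_cube (fun d f => (ψ f).1 d) (fun f => (ψ f).2)
    (fun d => (continuous_apply d).comp (continuous_subtype_val.comp hψ)) e hψe hm

end Pool.Agent.U19.TX
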