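import Mathlib
import Pool.Agent.H69R3.Core2
import Pool.Agent.H69R3.Extendial

/-!
# Coordinates of Tychonoff cubes

Auxiliary facts on the cubes `J → I`, `I = [0,1]`: changes of one coordinate, boxes with a code,
amalgamation of uncountably many boxes, and maps which separate the opposite faces.
-/

set_option autoImplicit false

open Set Topology Filter unitInterval

universe u v

namespace Pool.Agent.U19.TX

open Pool.Agent.Helper126 (delta_system uncountable_fiber)

open Classical in
/-- change of one coordinate -/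
noncomputable def upd {J : Type*} (β : J) (v : I) (d : J → I) : J → I := Function.update d β v

theorem upd_self {J : Type*} (β : J) (v : I) (d : J → I) : upd β v d β = v := by
  simp [upd]

theorem upd_ne {J : Type*} {β j : J} (h : j ≠ β) (v : I) (d : J → I) : upd β v d j = d j := by
  simp [upd, h]

theorem upd_eq {J : Type*} {β : J} {v : I} {d : J → I} (h : d β = v) : upd β v d = d := by
  rw [← h]
  simp [upd]

theorem continuous_upd {J : Type*} (β : J) (v : I) : Continuous (upd β v : (J → I) → (J → I)) := by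
  apply continuous_pi
  intro j
  by_cases h : j = β
  · subst h
    simp only [upd_self]
    exact continuous_const
  · simp only [upd_ne h]
    exact continuous_apply j

/-- a dense sequence in the unit interval -/
noncomputable def rs : ℕ → I := TopologicalSpace.denseSeq I

theorem exists_rs {U : Set I} (hU : IsOpen U) (hne : U.Nonempty) : ∃ n, rs n ∈ U := by
  obtain ⟨_, hx, n, rfl⟩ := (TopologicalSpace.denseRange_denseSeq I).inter_open_nonempty U hU hne
  exact ⟨n, hx⟩

/-- an open set contains a cylinder with coded sides -/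
theorem exists_code {J : Type*} {V : Set (J → I)} (hV : IsOpen V) {d1 : J → I} (hd : d1 ∈ V) :
    ∃ (G : Finset J) (s : J → ℕ), ∀ z : J → I, (∀ j ∈ G, z j = rs (s j)) → z ∈ V := by
  classical
  obtain ⟨G, u, hu, hs⟩ := isOpen_pi_iff.1 hV d1 hd
  have h1 : ∀ j, ∃ n, j ∈ G → rs n ∈ u j := by
    intro j
    by_cases hj : j ∈ G
    · obtain ⟨n, hn⟩ := exists_rs (hu j hj).1 ⟨_, (hu j hj).2⟩
      exact ⟨n, fun _ => hn⟩
    · exact ⟨0, fun h => absurd h hj⟩
  choose s hs' using h1
  refine ⟨G, s, fun z hz => hs fun j hj => ?_⟩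
  rw [hz j hj]
  exact hs' j hj

/-- the same, with one coordinate treated separately -/
theorem exists_code2 {J : Type*} (β : J) (z0 : J → I) {U W : Set (J → I)} (hU : IsOpen U)
    (hW : IsOpen W) {v w : I} (hv : upd β v z0 ∈ U) (hw : upd β w z0 ∈ W) :
    ∃ (G : Finset J) (s : J → ℕ), ∀ z : J → I, (∀ j ∈ G, j ≠ β → z j = rs (s j)) →
      (z β = v → z ∈ U) ∧ (z β = w → z ∈ W) := by
  classical
  obtain ⟨G1, u1, hu1, hs1⟩ := isOpen_pi_iff.1 hU _ hv
  obtain ⟨G2, u2, hu2, hs2⟩ := isOpen_pi_iff.1 hW _ hw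
  have h1 : ∀ j, ∃ n, j ≠ β → (j ∈ G1 → rs n ∈ u1 j) ∧ (j ∈ G2 → rs n ∈ u2 j) := by
    intro j
    by_cases hjβ : j = β
    · exact ⟨0, fun h => absurd hjβ h⟩
    set A : Set I := (if j ∈ G1 then u1 j else univ) ∩ (if j ∈ G2 then u2 j else univ) with hA
    have hAo : IsOpen A := by
      refine IsOpen.inter ?_ ?_
      · split_ifs with h
        · exact (hu1 j h).1
        · exact isOpen_univ
      · split_ifs with h
        · exact (hu2 j h).1
        · exact isOpen_univ
    have hAz : z0 j ∈ A := by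
      refine ⟨?_, ?_⟩
      · split_ifs with h
        · have := (hu1 j h).2
          rwa [upd_ne hjβ] at this
        · exact mem_univ _
      · split_ifs with h
        · have := (hu2 j h).2
          rwa [upd_ne hjβ] at this
        · exact mem_univ _
    obtain ⟨n, hn⟩ := exists_rs hAo ⟨_, hAz⟩
    refine ⟨n, fun _ => ⟨fun h => ?_, fun h => ?_⟩⟩
    · have := hn.1
      rwa [if_pos h] at this
    · have := hn.2
      rwa [if_pos h] at this
  choose s hs using h1
  refine ⟨G1 ∪ G2, s, fun z hz => ⟨fun hzv => hs1 fun j hj => ?_, fun hzw => hs2 fun j hj => ?_⟩⟩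
  · by_cases hjβ : j = β
    · subst hjβ
      have := (hu1 j hj).2
      rw [upd_self] at this
      rwa [hzv]
    · rw [hz j (Finset.mem_union_left _ hj) hjβ]
      exact (hs j hjβ).1 hj
  · by_cases hjβ : j = β
    · subst hjβ
      have := (hu2 j hj).2
      rw [upd_self] at this
      rwa [hzw]
    · rw [hz j (Finset.mem_union_right _ hj) hjβ]
      exact (hs j hjβ).2 hj

/-- amalgamation of uncountably many finite conditions -/
theorem amalgN {J : Type*} (S : Set J) (hS : ¬ S.Countable) (G : J → Finset J)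
    (s : J → J → ℕ) : ∃ S' ⊆ S, ¬ S'.Countable ∧ ∃ t : J → ℕ,
      ∀ β ∈ S', ∀ j ∈ G β, j ≠ β → (j ∉ S' ∧ t j = s β j) := by
  classical
  obtain ⟨S1, R, h1, h2, h3, h4⟩ := delta_system (fun β => insert β (G β)) S hS
  have h5 : ¬ (S1 \ (R : Set J)).Countable := by
    intro h
    apply h2
    refine ((h.union R.countable_toSet)).mono ?_
    intro x hx
    by_cases hxR : x ∈ (R : Set J)
    · exact Or.inr hxR
    · exact Or.inl ⟨hx, hxR⟩
  obtain ⟨r, hr⟩ := uncountable_fiber (fun β => fun j : R => s β j) (S1 \ (R : Set J)) h5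
  set S3 := {β ∈ S1 \ (R : Set J) | (fun j : R => s β j) = r} with hS3
  refine ⟨S3, fun β hβ => h1 hβ.1.1, hr, fun j =>
    if hj : j ∈ R then r ⟨j, hj⟩ else
      if h : ∃ β ∈ S3, j ∈ G β then s h.choose j else 0, ?_⟩
  intro β hβ j hj hjβ
  constructor
  · intro hjS
    have h6 := h4 β hβ.1.1 j hjS.1.1 (Ne.symm hjβ) j (Finset.mem_insert_of_mem hj)
      (Finset.mem_insert_self _ _)
    exact hjS.1.2 h6
  · by_cases hjR : j ∈ R
    · simp only [hjR, dif_pos]
      have := congrFun hβ.2 ⟨j, hjR⟩
      exact this.symm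
    · have hex : ∃ β ∈ S3, j ∈ G β := ⟨β, hβ, hj⟩
      simp only [hjR, hex, dif_pos, dif_neg, not_false_eq_true]
      obtain ⟨h7, h8⟩ := hex.choose_spec
      have h9 : hex.choose = β := by
        by_contra hne
        exact hjR (h4 _ h7.1.1 β hβ.1.1 hne j (Finset.mem_insert_of_mem h8)
          (Finset.mem_insert_of_mem hj))
      rw [h9]

/-- the point `(1 - t) p + t q` of the unit interval -/
noncomputable def lin (p q t : I) : I :=
  Set.projIcc 0 1 zero_le_one ((1 - (t : ℝ)) * p + t * q)

theorem lin_zero (p q : I) : lin p q 0 = p := by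
  simp [lin]

theorem lin_one (p q : I) : lin p q 1 = q := by
  simp [lin]

theorem continuous_lin (p q : I) : Continuous (lin p q) :=
  continuous_projIcc.comp (by fun_prop)

open Classical in
/-- the embedding of the cube with the coordinates in `S` in the cube with the coordinates in `J`:
the coordinate `j ∈ S` runs from `p j` to `q j`, the other coordinates are fixed -/
noncomputable def extI {J : Type*} (S : Set J) (p q : J → I) (t : J → ℕ) (e : S → I) : J → I :=
  fun j => if hj : j ∈ S then lin (p j) (q j) (e ⟨j, hj⟩) else rs (t j)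

theorem extI_mem {J : Type*} {S : Set J} {p q : J → I} {t : J → ℕ} {e : S → I} {j : J}
    (hj : j ∈ S) : extI S p q t e j = lin (p j) (q j) (e ⟨j, hj⟩) := by simp [extI, hj]

theorem extI_not_mem {J : Type*} {S : Set J} {p q : J → I} {t : J → ℕ} {e : S → I} {j : J}
    (hj : j ∉ S) : extI S p q t e j = rs (t j) := by simp [extI, hj]

theorem continuous_extI {J : Type*} (S : Set J) (p q : J → I) (t : J → ℕ) :
    Continuous (extI S p q t) := by
  apply continuous_pi
  intro j
  by_cases hj : j ∈ S
  · simp only [extI, hj, dif_pos]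
    exact (continuous_lin _ _).comp (continuous_apply _)
  · simp only [extI, hj, dif_neg, not_false_eq_true]
    exact continuous_const

/-- the function which is `0` up to `pq.1`, `1` from `pq.2` on, and linear between -/
noncomputable def ph (pq : ℚ × ℚ) (t : I) : I :=
  Set.projIcc 0 1 zero_le_one (((t : ℝ) - pq.1) / (pq.2 - pq.1))

theorem continuous_ph (pq : ℚ × ℚ) : Continuous (ph pq) :=
  continuous_projIcc.comp ((continuous_subtype_val.sub continuous_const).div_const _)

theorem ph_zero {pq : ℚ × ℚ} (h : (pq.1 : ℝ) < pq.2) {t : I} (ht : (t : ℝ) ≤ pq.1) :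
    ph pq t = 0 := by
  have h1 : ((t : ℝ) - pq.1) / (pq.2 - pq.1) ≤ 0 :=
    div_nonpos_of_nonpos_of_nonneg (by linarith) (by linarith)
  unfold ph
  rw [Set.projIcc_of_le_left _ h1]
  rfl

theorem ph_one {pq : ℚ × ℚ} (h : (pq.1 : ℝ) < pq.2) {t : I} (ht : (pq.2 : ℝ) ≤ t) :
    ph pq t = 1 := by
  have h1 : 1 ≤ ((t : ℝ) - pq.1) / (pq.2 - pq.1) := by
    rw [le_div_iff₀ (by linarith)]
    linarith
  unfold ph
  rw [Set.projIcc_of_right_le _ h1]
  rfl

/-- A continuous map from a Tychonoff cube of infinitely many coordinates which separates the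
opposite faces of each coordinate gives an injective one. -/
theorem inj_of_faces {S : Type v} [Infinite S] {X : Type u} [TopologicalSpace X]
    (g : (S → I) → X) (hg : Continuous g)
    (h : ∀ (e e' : S → I) (β : S), e β = 0 → e' β = 1 → g e ≠ g e') :
    ∃ g' : (S → I) → X, Continuous g' ∧ Function.Injective g' := by
  classical
  have hc : Cardinal.mk S = Cardinal.mk (S × (ℚ × ℚ)) := by
    rw [Cardinal.mk_prod]
    have h1 : Cardinal.mk (ℚ × ℚ) = Cardinal.aleph0 := Cardinal.mk_eq_aleph0 _
    rw [h1, Cardinal.lift_aleph0, Cardinal.lift_uzero]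
    exact (Cardinal.mul_aleph0_eq (Cardinal.aleph0_le_mk S)).symm
  obtain ⟨ρ⟩ := Cardinal.eq.1 hc
  refine ⟨fun x => g fun β => ph (ρ β).2 (x (ρ β).1), ?_, ?_⟩
  · refine hg.comp (continuous_pi fun β => ?_)
    exact (continuous_ph _).comp (continuous_apply _)
  · have key : ∀ x x' : S → I, (∃ τ, x τ < x' τ) →
        g (fun β => ph (ρ β).2 (x (ρ β).1)) ≠ g (fun β => ph (ρ β).2 (x' (ρ β).1)) := by
      rintro x x' ⟨τ, hτ⟩
      have hτ' : (x τ : ℝ) < x' τ := hτ
      obtain ⟨p, hp1, hp2⟩ := exists_rat_btwn hτ'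
      obtain ⟨q, hq1, hq2⟩ := exists_rat_btwn hp2
      refine h _ _ (ρ.symm (τ, (p, q))) ?_ ?_
      · simp only [Equiv.apply_symm_apply]
        exact ph_zero hq1 hp1.le
      · simp only [Equiv.apply_symm_apply]
        exact ph_one hq1 hq2.le
    intro x x' hxx
    by_contra hne
    obtain ⟨τ, hτ⟩ := Function.ne_iff.1 hne
    rcases lt_or_gt_of_ne hτ with h1 | h1
    · exact key x x' ⟨τ, h1⟩ hxx
    · exact key x' x ⟨τ, h1⟩ hxx.symm

/-- A continuous map from a Tychonoff cube to a space which contains no uncountable Tychonoff cube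
depends on countably many coordinates. -/
theorem cube_support {X : Type u} [TopologicalSpace X] [T2Space X]
    (hN : ∀ (S : Type v) [Uncountable S] (g : (S → I) → X), Continuous g →
      ¬ Function.Injective g) {J : Type v} (g : (J → I) → X) (hg : Continuous g) :
    {β : J | ∃ d v, g (upd β v d) ≠ g d}.Countable := by
  classical
  by_contra hS
  have key : ∀ β ∈ {β : J | ∃ d v, g (upd β v d) ≠ g d}, ∃ (p q : I) (G : Finset J) (s : J → ℕ),
      ∀ d d' : J → I, (∀ j ∈ G, j ≠ β → d j = rs (s j)) → (∀ j ∈ G, j ≠ β → d' j = rs (s j)) →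
        d β = p → d' β = q → g d ≠ g d' := by
    rintro β ⟨d0, v0, hd0⟩
    obtain ⟨U, W, hU, hW, hxU, hxW, hUW⟩ := t2_separation hd0
    obtain ⟨G, s, hGs⟩ := exists_code2 β d0 (hU.preimage hg) (hW.preimage hg) (v := v0) (w := d0 β)
      hxU (by rw [upd_eq rfl]; exact hxW)
    refine ⟨v0, d0 β, G, s, fun d d' hd hd' hp hq heq => ?_⟩
    exact disjoint_left.1 hUW ((hGs d hd).1 hp) (heq ▸ (hGs d' hd').2 hq)
  choose! p q G s hGs using key
  obtain ⟨S', hS'S, hS', t, ht⟩ := amalgN _ hS G s
  have : Uncountable S' := by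
    rw [← not_countable_iff]
    exact fun h => hS' (Set.countable_coe_iff.1 h)
  obtain ⟨g', hg', hinj⟩ := inj_of_faces (fun e : S' → I => g (extI S' p q t e))
    (hg.comp (continuous_extI S' p q t)) (by
      intro e e' β h0 h1
      refine hGs β (hS'S β.2) _ _ ?_ ?_ ?_ ?_
      · intro j hj hjβ
        obtain ⟨h4, h5⟩ := ht β β.2 j hj hjβ
        rw [extI_not_mem h4, h5]
      · intro j hj hjβ
        obtain ⟨h4, h5⟩ := ht β β.2 j hj hjβ
        rw [extI_not_mem h4, h5]
      · rw [extI_mem β.2]
        show lin _ _ (e β) = _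
        rw [h0, lin_zero]
      · rw [extI_mem β.2]
        show lin _ _ (e' β) = _
        rw [h1, lin_one])
  exact hN S' g' hg' hinj

end Pool.Agent.U19.TX
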